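import Pool.Agent.H68.GHY.Targets

/-!
Row KMD of the board ghy: measurability of the kernels.
-/

set_option autoImplicit false

namespace Pool.Agent.H69.GHY

open MeasureTheory Pool.Agent.H34.GM Pool.Agent.H34.GZ Pool.Agent.H34.GU Pool.Agent.H34.GA
open Pool.Agent.H68.GHY

theorem kmd_kk {m : ℕ} {r : ℝ} {β : Type} [MeasurableSpace β] (Ψ : Mat m → β) (α : Mat m)
    (hkk : Measurable (fun p : V m × V m =>
      ((fun i j => kk r (mt p.1) α (mt p.2) i j) : V m)))
    (hΨ : Measurable (fun z : V m => Ψ (mt z))) :
    Measurable (fun p : V m × V m => Ψ (kk r (mt p.2) α (mt p.1))) := by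
  have h2 : Measurable (fun p : V m × V m => (p.2, p.1)) := measurable_snd.prodMk measurable_fst
  have h4 := hkk.comp h2
  have h5 := hΨ.comp h4
  have h6 : ((fun z : V m => Ψ (mt z)) ∘ ((fun p : V m × V m =>
      ((fun i j => kk r (mt p.1) α (mt p.2) i j) : V m)) ∘ (fun p : V m × V m => (p.2, p.1)))) =
      (fun p => Ψ (kk r (mt p.2) α (mt p.1))) := by
    funext x
    show Ψ (mt (fun i j => kk r (mt x.2) α (mt x.1) i j)) = _
    have e : ∀ A : Mat m, mt (fun i j => A i j) = A := by
      intro A
      ext i j
      rfl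
    rw [e]
  rw [← h6]
  exact h5

theorem kmd_sz (m : ℕ) : Measurable (fun z : V m => sz (mt z - 1)) := by
  have h1 : (fun z : V m => sz (mt z - 1)) =
      fun z : V m => ‖z - (fun i j => (1 : Mat m) i j : V m)‖ := by
    funext z
    rfl
  rw [h1]
  exact (continuous_id.sub continuous_const).norm.measurable

theorem pf_KMD (hMSR : T_MSR) : T_KMD := by
  classical
  intro m N d y x w hm
  obtain ⟨hms, -, -⟩ := hMSR
  obtain ⟨-, -, -, hsz, -, -, hkk, hΦc⟩ := hms m
  have hct : Countable (ZM m) := (inferInstance : Countable (Fin m → Fin m → ℤ))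
  constructor
  · unfold Kd
    refine Measurable.tsum fun γ => ?_
    refine Measurable.ite ?_ measurable_const measurable_const
    have h1 := kmd_kk (fun z => sz (z - 1)) (cR γ) (hkk (aN (cR γ)) (cR γ)) (kmd_sz m)
    have h1' := h1.comp (measurable_snd : Measurable (fun p : ℝ × V m × V m => p.2))
    have h2 : MeasurableSet {p : ℝ × V m × V m |
        sz (kk (aN (cR γ)) (mt p.2.2) (cR γ) (mt p.2.1) - 1) ≤ d} :=
      measurableSet_le h1' measurable_const
    have h3 : MeasurableSet {p : ℝ × V m × V m | wd p.1 d γ.det.natAbs} := by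
      refine MeasurableSet.inter ?_ ?_
      · exact measurableSet_lt measurable_fst measurable_const
      · exact measurableSet_le measurable_const (measurable_fst.mul_const _)
    refine MeasurableSet.inter (MeasurableSet.const _) ?_
    refine MeasurableSet.inter (MeasurableSet.const _) ?_
    refine MeasurableSet.inter h3 ?_
    refine MeasurableSet.inter (MeasurableSet.const _) ?_
    exact MeasurableSet.inter (MeasurableSet.const _) h2
  · intro Φ hΦ a x0
    unfold Kc
    refine Measurable.tsum fun γ => ?_
    refine Measurable.ite (MeasurableSet.const _) ?_ measurable_const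
    exact (kmd_kk Φ (cR γ) (hkk (aN (cR γ)) (cR γ)) (hΦc Φ hΦ.cont)).const_mul _

end Pool.Agent.H69.GHY
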